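import Pool.Agent.PJC.Stmts

/-!
Squad PJC, row REW (helper86).
-/

set_option autoImplicit false

namespace Pool.Agent.PJC.H86

/-- REW. -/
theorem rew : RewStmt := by
  intro n N p q ε hd hε0 hε1 t ht w g y s hK
  obtain ⟨σ, hσ⟩ : ∃ σ : Fin N → ℝ, ∀ i, σ i = if 0 ≤ inner ℝ t (y i) then 1 else -1 :=
    ⟨fun i => if 0 ≤ inner ℝ t (y i) then 1 else -1, fun i => rfl⟩
  have hσ2 : ∀ i, σ i * σ i = 1 := by
    intro i
    rw [hσ]
    split_ifs <;> norm_num
  have hσa : ∀ i, σ i = 1 ∨ σ i = -1 := by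
    intro i
    rw [hσ]
    split_ifs
    · exact Or.inl rfl
    · exact Or.inr rfl
  obtain ⟨v, hv⟩ : ∃ v : Fin N → Eu n, ∀ i, v i = σ i • y i := ⟨fun i => σ i • y i, fun i => rfl⟩
  obtain ⟨t', ht'⟩ : ∃ t' : Fin N → Eu n, ∀ i, t' i = (-σ i) • g i :=
    ⟨fun i => (-σ i) • g i, fun i => rfl⟩
  obtain ⟨u, hu⟩ : ∃ u : Fin N → ℝ, ∀ i, u i = inner ℝ t (v i) :=
    ⟨fun i => inner ℝ t (v i), fun i => rfl⟩
  have hu1 : ∀ i, u i = σ i * inner ℝ t (y i) := by
    intro i
    rw [hu, hv, inner_smul_right]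
  have hpv : ∀ i, p (v i) ≤ 1 := by
    intro i
    rw [hv]
    rcases hσa i with h | h <;> rw [h]
    · rw [one_smul]; exact hK.pt i
    · rw [neg_one_smul, map_neg_eq_map]; exact hK.pt i
  have hqt : ∀ i, q (t' i) = 1 := by
    intro i
    rw [ht']
    rcases hσa i with h | h <;> rw [h]
    · rw [neg_one_smul, map_neg_eq_map]; exact hK.st i
    · rw [neg_neg, one_smul]; exact hK.st i
  have hu0 : ∀ i, 0 ≤ u i := by
    intro i
    rw [hu1, hσ]
    split_ifs with h
    · rw [one_mul]; exact h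
    · push Not at h
      linarith
  have hule : ∀ i, u i ≤ 1 := by
    intro i
    rw [hu]
    refine (hd.le t (v i)).trans ?_
    rw [ht, one_mul]
    exact hpv i
  have htv : ∀ i, inner ℝ (t' i) (v i) = - inner ℝ (g i) (y i) := by
    intro i
    rw [ht', hv, real_inner_smul_left, inner_smul_right]
    have := hσ2 i
    linear_combination (- inner ℝ (g i) (y i)) * this
  have htv0 : ∀ i, 0 ≤ 1 + inner ℝ (t' i) (v i) := by
    intro i
    rw [htv]
    have h1 := hd.le (g i) (y i)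
    rw [hK.st i, one_mul] at h1
    have := hK.pt i
    linarith
  have hmean : ∑ i, (w i * u i) • t' i = s • t := by
    have h1 : ∑ i, (w i * u i) • t' i = - ∑ i, (w i * inner ℝ t (y i)) • g i := by
      rw [← Finset.sum_neg_distrib]
      refine Finset.sum_congr rfl fun i _ => ?_
      rw [ht', hu1, smul_smul, ← neg_smul]
      congr 1
      have := hσ2 i
      linear_combination (- (w i * inner ℝ t (y i))) * this
    rw [h1, hK.mean, neg_smul, neg_neg]
  have hbud : 2 - ε ≤ s - ∑ i, w i * inner ℝ (t' i) (v i) := by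
    have h1 : ∑ i, w i * inner ℝ (t' i) (v i) = - ∑ i, w i * inner ℝ (g i) (y i) := by
      rw [← Finset.sum_neg_distrib]
      refine Finset.sum_congr rfl fun i _ => ?_
      rw [htv]
      ring
    rw [h1]
    have := hK.bud
    linarith
  have hE : ∑ i, w i * (1 + inner ℝ (t' i) (v i)) = 1 + ∑ i, w i * inner ℝ (t' i) (v i) := by
    have h1 : ∀ i, w i * (1 + inner ℝ (t' i) (v i)) = w i + w i * inner ℝ (t' i) (v i) :=
      fun i => by ring
    simp_rw [h1]
    rw [Finset.sum_add_distrib, hK.w1]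
  have hE0 : 0 ≤ ∑ i, w i * (1 + inner ℝ (t' i) (v i)) :=
    Finset.sum_nonneg fun i _ => mul_nonneg (hK.w0 i) (htv0 i)
  have hs0 : 0 < s := by linarith
  obtain ⟨m, hm⟩ : ∃ m, m = ∑ i, w i * u i := ⟨_, rfl⟩
  have hm1 : m ≤ 1 := by
    rw [hm, ← hK.w1]
    exact Finset.sum_le_sum fun i _ => mul_le_of_le_one_right (hK.w0 i) (hule i)
  have hsm : s ≤ m := by
    obtain ⟨x, hx1, hx2⟩ := hd.exP t
    rw [ht] at hx2
    have h1 : inner ℝ (∑ i, (w i * u i) • t' i) x = s := by
      rw [hmean, real_inner_smul_left, hx2, mul_one]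
    rw [sum_inner] at h1
    rw [← h1, hm]
    refine Finset.sum_le_sum fun i _ => ?_
    rw [real_inner_smul_left]
    refine mul_le_of_le_one_right (mul_nonneg (hK.w0 i) (hu0 i)) ?_
    refine (hd.le (t' i) x).trans ?_
    rw [hqt, one_mul]
    exact hx1
  have hm0 : 0 < m := hs0.trans_le hsm
  have hsum : ∑ i, w i * u i / m = 1 := by
    rw [← Finset.sum_div, ← hm, div_self hm0.ne']
  refine ⟨t', v, fun i => w i * u i / m, 1 - s / m, 1 - m, ⟨?_, hsum, hqt, hpv, ?_, ?_, ?_, ?_, ?_, ?_⟩⟩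
  · intro i
    exact div_nonneg (mul_nonneg (hK.w0 i) (hu0 i)) hm0.le
  · have h1 : ∀ i, (w i * u i / m) • t' i = (1 / m) • ((w i * u i) • t' i) := by
      intro i
      rw [smul_smul]
      congr 1
      ring
    simp_rw [h1]
    rw [← Finset.smul_sum, hmean, smul_smul]
    congr 1
    ring
  · rw [sub_nonneg, div_le_one hm0]
    exact hsm
  · linarith
  · linarith
  · have h1 : ∀ i, w i * u i / m * (1 - inner ℝ t (v i)) =
        w i * u i / m - (w i * u i ^ 2) / m := by
      intro i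
      rw [← hu]
      ring
    simp_rw [h1]
    rw [Finset.sum_sub_distrib, hsum, ← Finset.sum_div]
    have h2 : m ^ 2 ≤ ∑ i, w i * u i ^ 2 := by
      have h3 := Finset.sum_nonneg (s := Finset.univ) fun (i : Fin N) _ =>
        mul_nonneg (hK.w0 i) (sq_nonneg (u i - m))
      have h4 : ∑ i, w i * (u i - m) ^ 2 = ∑ i, w i * u i ^ 2 - m ^ 2 := by
        have h5 : ∀ i, w i * (u i - m) ^ 2 =
            w i * u i ^ 2 - 2 * m * (w i * u i) + m ^ 2 * w i := fun i => by ring
        simp_rw [h5]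
        rw [Finset.sum_add_distrib, Finset.sum_sub_distrib, ← Finset.mul_sum, ← Finset.mul_sum,
          ← hm, hK.w1]
        ring
      rw [h4] at h3
      linarith
    have h6 : m ≤ (∑ i, w i * u i ^ 2) / m := by
      rw [le_div_iff₀ hm0]
      nlinarith
    linarith
  · have h1 : m * ∑ i, w i * u i / m * (1 + inner ℝ (t' i) (v i)) ≤
        ∑ i, w i * (1 + inner ℝ (t' i) (v i)) := by
      rw [Finset.mul_sum]
      refine Finset.sum_le_sum fun i _ => ?_
      have h2 : m * (w i * u i / m * (1 + inner ℝ (t' i) (v i))) =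
          u i * (w i * (1 + inner ℝ (t' i) (v i))) := by
        field_simp
      rw [h2]
      exact mul_le_of_le_one_left (mul_nonneg (hK.w0 i) (htv0 i)) (hule i)
    have h3 : m * (1 - s / m) = m - s := by
      field_simp
    have h4 : 1 - m + (1 - (1 - m)) * (∑ i, w i * u i / m * (1 + inner ℝ (t' i) (v i)) +
        (1 - s / m)) = 1 - m + (m * ∑ i, w i * u i / m * (1 + inner ℝ (t' i) (v i))) +
          m * (1 - s / m) := by ring
    rw [h4, h3]
    linarith

end Pool.Agent.PJC.H86
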